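import Pool.Agent.BOX.StmtsN

/-!
# BOX, row MAN: boxes of dimension `N ≥ 3` (composition)
-/

namespace Pool.Agent.BOX.H59

open Set Filter Topology MeasureTheory

noncomputable section

variable {N : ℕ}

theorem wt_w2 : Wt (w2 : (Fin N → ℤ) → ℝ) := by
  constructor
  · intro g
    unfold w2
    have h : (0 : ℝ) ≤ ∑ i, |(g i : ℝ)| := Finset.sum_nonneg fun i _ => abs_nonneg _
    nlinarith
  · intro g h
    unfold w2
    have h1 : (0 : ℝ) ≤ ∑ i, |(g i : ℝ)| := Finset.sum_nonneg fun i _ => abs_nonneg _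
    have h2 : (0 : ℝ) ≤ ∑ i, |(h i : ℝ)| := Finset.sum_nonneg fun i _ => abs_nonneg _
    have h3 : ∑ i, |((g + h) i : ℝ)| ≤ ∑ i, |(g i : ℝ)| + ∑ i, |(h i : ℝ)| := by
      rw [← Finset.sum_add_distrib]
      refine Finset.sum_le_sum fun i _ => ?_
      rw [Pi.add_apply, Int.cast_add]
      exact abs_add_le _ _
    have h0 : (0 : ℝ) ≤ ∑ i, |((g + h) i : ℝ)| := Finset.sum_nonneg fun i _ => abs_nonneg _
    rw [← mul_pow]
    refine pow_le_pow_left₀ (by linarith) ?_ 2
    nlinarith [mul_nonneg h1 h2]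

theorem frq_flp (l : Fin N → ℝ) (i : Fin N) (k : Fin N → ℤ) : frq l (flp i k) = frq l k := by
  unfold frq
  congr 1
  refine Finset.sum_congr rfl fun j _ => ?_
  have : (flp i k) j = if j = i then - k j else k j := rfl
  rw [this]
  split_ifs
  · push_cast
    ring
  · rfl

theorem abs_chi (k : Fin N → ℤ) : |chi k| ≤ 1 := by
  unfold chi
  rw [Finset.abs_prod]
  refine Finset.prod_le_one (fun i _ => abs_nonneg _) fun i _ => Real.abs_sin_le_one _

theorem chi_one : chi (fun _ : Fin N => (1 : ℤ)) = 1 := by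
  unfold chi
  refine Finset.prod_eq_one fun i _ => ?_
  rw [Int.cast_one, mul_one, Real.sin_pi_div_two]

theorem chi_sign (k : Fin N → ℤ) (hk : ∀ i, k i = 1 ∨ k i = -1) : chi k * ∏ i, (k i : ℝ) = 1 := by
  unfold chi
  rw [← Finset.prod_mul_distrib]
  refine Finset.prod_eq_one fun i _ => ?_
  rcases hk i with h | h
  · rw [h, Int.cast_one, mul_one, mul_one, Real.sin_pi_div_two]
  · rw [h]
    push_cast
    rw [show Real.pi * -1 / 2 = -(Real.pi / 2) by ring, Real.sin_neg, Real.sin_pi_div_two]
    norm_num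

theorem sg3 (x y v : ℤ) : (if Odd (x + y + v) then (1 : ℝ) else -1) =
    (if Odd x then 1 else -1) * (if Odd y then 1 else -1) * (if Odd v then 1 else -1) := by
  simp only [Int.odd_iff]
  split_ifs <;> first | (exfalso; omega) | norm_num

theorem man (seq : SeqStmt) (fnl : FnlStmt) (frn : FrnStmt) (mun : MunStmt) : ManStmt := by
  intro N l a hN hl ha hD
  obtain ⟨W0, ν, hF, hSm, hW1, hW0⟩ := frn N l hN hl hD
  obtain ⟨T, z, d, A, C, hT, hd, hbd, hode, hA, hlim, happ, hsym⟩ :=
    seq ℤ (Fin N → ℤ) (th3 l) (frq l) w2 R3 Good3 W0 ν hF wt_w2 hSm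
  have hν : 0 < ν := hF.pos
  -- symmetries of the solution
  have hflp : ∀ (i : Fin N) (k : Fin N → ℤ), ∀ t > T, z (flp i k) t = z k t := by
    intro i k t ht
    have h := hsym (flp i) (fun _ => 1) (fun _ => by norm_num) (fun _ _ _ => by norm_num)
      (fun k => frq_flp l i k) (fun F hG p k => by
        rw [hG.2.1 p k i]
        push_cast
        rw [one_mul]) k t ht
    rw [h]
    push_cast
    rw [one_mul]
  have hodd : ∀ (k : Fin N → ℤ) (i : Fin N), ¬ Odd (k i) → ∀ t > T, z k t = 0 := by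
    intro k i hk t ht
    have h := hsym (AddEquiv.refl _) (fun k => if Odd (k i) then 1 else -1)
      (fun k => by split_ifs <;> norm_num) (fun x y v => sg3 (x i) (y i) (v i))
      (fun k => rfl) (fun F hG p k => by
        simp only [AddEquiv.refl_apply]
        by_cases hz : F (p, k) = 0
        · rw [hz, mul_zero]
        · rw [if_pos ((hG.2.2 _ hz).2 i)]
          push_cast
          rw [one_mul]) k t ht
    simp only [AddEquiv.refl_apply] at h
    rw [if_neg hk] at h
    push_cast at h
    have h2 : 2 * z k t = 0 := by linear_combination h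
    simpa using h2
  have hsgn : ∀ (S : Finset (Fin N)), ∀ t > T,
      z (fun i => if i ∈ S then -1 else 1) t = z (fun _ => 1) t := by
    intro S t ht
    induction S using Finset.induction_on with
    | empty => simp
    | insert i S hi ih =>
      have hfi := hflp i (fun j => if j ∈ S then -1 else 1) t ht
      rw [← ih, ← hfi]
      congr 1
      funext j
      have : (flp i (fun j => if j ∈ S then -1 else 1 : Fin N → ℤ)) j =
        if j = i then - (if j ∈ S then -1 else 1 : ℤ) else (if j ∈ S then -1 else 1) := rfl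
      rw [this]
      by_cases hj : j = i
      · subst hj
        simp [hi]
      · simp [hj]
  -- the amplitude
  set c0 : ℝ := Real.sqrt (1 / (4 * ν)) with hc0
  have hc0p : 0 < c0 := Real.sqrt_pos.mpr (by positivity)
  have hc0s : c0 ^ 2 = 1 / (4 * ν) := Real.sq_sqrt (by positivity)
  have hlt : 1 / (4 * ν) < 1 / (2 * ν) := by
    rw [div_lt_div_iff₀ (by positivity) (by positivity)]
    linarith
  obtain ⟨T1, hT1⟩ := (eventually_atTop.mp (hlim.eventually_const_lt hlt))
  set T' : ℝ := max T (max T1 (|C| / c0)) with hT'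
  have hTT : T ≤ T' := le_max_left _ _
  have hT1' : T1 ≤ T' := (le_max_left _ _).trans (le_max_right _ _)
  have hTC : |C| / c0 ≤ T' := (le_max_right _ _).trans (le_max_right _ _)
  have hev : ∀ t : ℝ, ‖ev (th3 l) W0 t (fun _ => 1)‖ = 2 := by
    intro t
    unfold ev
    rw [tsum_eq_single (1 : ℤ) (fun p hp => by rw [hW0 p hp, zero_mul]), hW1, norm_mul,
      mul_comm Complex.I, Complex.norm_exp_ofReal_mul_I]
    norm_num
  have hlow : ∀ t > T', c0 * t ^ (-(1 / 2) : ℝ) ≤ ‖z (fun _ => 1) t‖ := by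
    intro t ht
    have htT : T < t := lt_of_le_of_lt hTT ht
    have ht0 : 0 < t := by linarith
    have h1 := happ (fun _ => 1) t htT
    have hAt := hA t htT
    have h2 : 2 * A t ≤ ‖z (fun _ => 1) t‖ + C * t ^ (-(3 / 2) : ℝ) := by
      have h3 : ‖(A t : ℂ) * ev (th3 l) W0 t (fun _ => 1)‖ = 2 * A t := by
        rw [norm_mul, hev, Complex.norm_real, Real.norm_of_nonneg hAt.le]
        ring
      have h4 := norm_sub_norm_le ((A t : ℂ) * ev (th3 l) W0 t (fun _ => 1)) (z (fun _ => 1) t)
      rw [norm_sub_rev, h3] at h4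
      linarith
    have hr : t ^ (-(1 / 2) : ℝ) = 1 / Real.sqrt t := by
      rw [Real.rpow_neg ht0.le, Real.sqrt_eq_rpow, one_div, one_div]
    have hsq : 0 < Real.sqrt t := Real.sqrt_pos.mpr ht0
    have hss : Real.sqrt t ^ 2 = t := Real.sq_sqrt ht0.le
    have h5 : c0 * t ^ (-(1 / 2) : ℝ) ≤ A t := by
      have h6 := hT1 t (hT1'.trans ht.le)
      rw [hr, mul_one_div, div_le_iff₀ hsq]
      have h7 : c0 ^ 2 ≤ (A t * Real.sqrt t) ^ 2 := by
        rw [hc0s, mul_pow, hss]
        linarith
      exact (pow_le_pow_iff_left₀ hc0p.le (by positivity) two_ne_zero).mp h7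
    have h8 : C * t ^ (-(3 / 2) : ℝ) ≤ c0 * t ^ (-(1 / 2) : ℝ) := by
      have h9 : t ^ (-(3 / 2) : ℝ) = t⁻¹ * t ^ (-(1 / 2) : ℝ) := by
        rw [← Real.rpow_neg_one, ← Real.rpow_add ht0]
        norm_num
      have h10 : 0 ≤ t ^ (-(1 / 2) : ℝ) := Real.rpow_nonneg ht0.le _
      have h11 : C * t⁻¹ ≤ c0 := by
        have h12 : |C| / c0 < t := lt_of_le_of_lt hTC ht
        rw [div_lt_iff₀ hc0p] at h12
        rw [← div_eq_mul_inv, div_le_iff₀ ht0]
        linarith [le_abs_self C, mul_comm t c0]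
      rw [h9, ← mul_assoc]
      exact mul_le_mul_of_nonneg_right h11 h10
    linarith
  have hsys : Sys l chi T' z d := by
    refine ⟨hl, abs_chi, hT.trans hTT, hd, fun k t ht => hbd k t (lt_of_le_of_lt hTT ht),
      fun k t ht => hode k t (lt_of_le_of_lt hTT ht), fun t ht => ?_, ?_, fun k hk t ht => ?_⟩
    · have htT : T < t := lt_of_le_of_lt hTT ht
      have ht0 : 0 < t := by linarith
      have hdn : ∀ k, 0 ≤ d k := by
        intro k
        have h1 := (norm_nonneg _).trans (hbd k t htT)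
        have h2 : 0 < t ^ (-(1 / 2) : ℝ) := Real.rpow_pos_of_pos ht0 _
        exact nonneg_of_mul_nonneg_left h1 h2
      refine mun N l (fun k => (z k t).re) hl ?_ ?_ ?_
      · refine Summable.of_nonneg_of_le (fun k => abs_nonneg _) (fun k => ?_)
          (hd.mul_right (t ^ (-(1 / 2) : ℝ)))
        have h2 : 0 < t ^ (-(1 / 2) : ℝ) := Real.rpow_pos_of_pos ht0 _
        calc |(z k t).re| ≤ ‖z k t‖ := Complex.abs_re_le_norm _
          _ ≤ d k * t ^ (-(1 / 2) : ℝ) := hbd k t htT
          _ ≤ d k * w2 k * t ^ (-(1 / 2) : ℝ) := by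
              refine mul_le_mul_of_nonneg_right ?_ h2.le
              exact le_mul_of_one_le_right (hdn k) (wt_w2.1 k)
      · intro i k
        exact congrArg Complex.re (hflp i k t htT)
      · intro k hk i
        by_contra hi
        refine hk ?_
        have hz0 := congrArg Complex.re (hodd k i hi t htT)
        rwa [Complex.zero_re] at hz0
    · rw [chi_one, abs_one]
    · have htT : T < t := lt_of_le_of_lt hTT ht
      have hz : z k t = z (fun _ => 1) t := by
        rw [← hsgn (Finset.univ.filter fun i => k i = -1) t htT]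
        congr 1
        funext i
        rcases hk i with h | h
        · simp [h]
        · simp [h]
      rw [chi_one, hz]
      have h1 := chi_sign k hk
      have h2 : ((chi k : ℝ) : ℂ) * ((∏ i, (k i : ℝ) : ℝ) : ℂ) = 1 := by
        rw [← Complex.ofReal_mul, h1, Complex.ofReal_one]
      rw [h2]
      push_cast
      rfl
  exact fnl N l chi T' z d a c0 hsys (by omega) ha hc0p hlow

end

end Pool.Agent.BOX.H59
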